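import Pool.Agent.Results.MP_a12702_lc.MagidorMalitz
import Pool.Agent.T2H96.XS.Rule
import Pool.Agent.T2H96.XS.Bor
import Pool.Agent.T2H96.XS.Elim

/-!
# Quasiminimality for quantifiers over the solutions of systems of exponential equations in several unknowns

The starting results prove that the sets of complex numbers are countable or cocountable which
are obtained from zero sets of entire functions by countable Boolean combinations, preimages
under entire maps, generic quantifiers (for uncountably many, Magidor-Malitz, measure), and
quantifiers over the solutions of ONE equation: in their guarded quantifiers with an arbitrary matrix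
`X(s, x)`, the number `x` is a zero of ONE equation of finite order in ONE unknown. The essential
difficulty of the quasiminimality problem are SYSTEMS of several exponential equations in several unknowns:
the closure operator of the exponential field is given by the nondegenerate solutions of systems of `n` equations
in `n` unknowns ('Khovanskii systems').

Here we add the quantifiers 'there are at least `κ` nondegenerate solutions `x ∈ ℂ^n` of the system of `n` equations
`G(s, x) = 0` such that `X(s, x)`', where the matrix `X ⊆ ℂ^{m+n}` is an ARBITRARY set of the family, and the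
system is polynomial in `x₁, …, x_n, exp x₁, …, exp x_n` (with coefficients entire in the
parameters `s ∈ ℂ^m`), for all systems for which the `n`-dimensional variety `V_s ⊆ ℂ^n × (ℂ^*)^n` with graph
points the solutions projects dominantly to `ℂ^n`, i.e. every `exp x_i` is algebraic over `x₁, …, x_n` on
`V_s` (on the part of `V_s` where the leading coefficients `Λ(s, x)` of these algebraic dependencies do not
vanish). This is the class of varieties of the existence theorems of Brownawell and Masser and of
D'Aquino, Fornasiero and Terzo. The rule can be iterated, so that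
it covers towers of such systems; together with the generic quantifiers it covers
the families of solutions of systems with fewer equations than unknowns.

Definitions. `Pt n` is `ℂ^n` with the maximum norm. `ExpSys δ G E Λ` says that `G : ℂ^m × ℂ^n → ℂ^n`, the
exponents `E : ℂ^m × ℂ^n → ℂ^n` (usually `E(s, x) = x`) and `Λ : ℂ^m × ℂ^n → ℂ` are entire and
that locally uniformly in `s` outside of the zeros of the entire function `δ`: `Λ` and `E` have
polynomial growth in `x`, `|x|` is at most a power of `1 + |E(s, x)|`, `|G(s, x)|` is at most a power of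
`(1 + |x|) ∏ max(1, |exp E_i|)`, and `|Λ exp(E_i)|` is at most a power of `1 + |x|` at the nondegenerate solutions of
`G(s, x) = 0`.
`IsSol δ G Λ s x` says that `δ(s) ≠ 0`, `G(s, x) = 0`, `Λ(s, x) ≠ 0` and that the Jacobian determinant
of `G(s, ·)` at `x` is not zero.

Proof. Let `γ(t)` be an analytic curve and `Y(t, x)` the condition `X(γ(t), x)`. The nondegenerate solutions
form a family of branches over the `t`-plane. We weight the solution `x` with
`f(t, x) = det J · Λ^Q · q(x) · ∏ φ_ε(E_i)^p`, where `J` is the Jacobian matrix, `q` an auxiliary polynomial and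
`φ_ε(z) = (exp(ε z) - 1) / z`. At the solutions `f` is bounded and tends to zero for `|x| → ∞`, and it
vanishes at the degenerate ones. The Jacobian determinant makes the counting trivial: if
`|f(t, x)| ≥ 1/N` then there is no other solution at a distance less than `c N^{-κ}` from `x`, by Taylor's formula,
so that there are at most `C N^{κ'}` solutions with `|f| ≥ 1/N`. There is no Bézout theorem for entire maps, but none is
needed. Hence the numbers `1/f(t, x)` for the solutions `x` with `Y(t, x)` are divisors of polynomial
growth which vary holomorphically with `t` outside of a countable set, and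
the counting theorem of the starting result `FiniteOrderGuards` applies. That `≥ κ` solutions exist
is a Borel condition because the solutions can be enumerated by Borel functions.
-/

set_option autoImplicit false

namespace Pool.Agent.Results.MP_a12702_lc.ExponentialSystems

open Set Function Cardinal MeasureTheory Pool.Agent.TH735.QM Pool.Agent.T2H96.XS

/-- Closure conditions on families `𝒟 m` of subsets of `ℂ^m`: those of the starting result
`MagidorMalitz` and a further one. -/
structure ClosedXS (𝒟 : (m : ℕ) → Set (Set (Fin m → ℂ))) : Prop extends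
    MagidorMalitz.ClosedMM 𝒟 where
  /-- there are at least `κ` nondegenerate solutions `x ∈ ℂ^n` of the exponential system with `X(s, x)`, for
  an arbitrary set `X` of the family -/
  solutions : ∀ (m n : ℕ) (δ : Pt m → ℂ) (G E : Pt m → Pt n → Pt n) (Λ : Pt m → Pt n → ℂ),
    ExpSys δ G E Λ → ∀ X ∈ 𝒟 (m + n), ∀ κ : Cardinal.{0},
    {s : Pt m | κ ≤ #({x : Pt n | IsSol δ G Λ s x ∧
      (Fin.append s x : Fin (m + n) → ℂ) ∈ X} : Set (Pt n))} ∈ 𝒟 m

theorem closed_BC : ClosedXS (fun m => {X | CQ m X ∧ MeasurableSet X}) :=
  { MagidorMalitz.closed_BC with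
    solutions := fun _ _ _ _ _ _ h _ hX κ =>
      ⟨Pool.Agent.T2H96.XS.CQ.sys h hX.1 κ, meas_sys h.an_d h.an_G h.an_L hX.2 κ⟩ }

/-- (1) The sets in the least closed family are Borel sets with countable or cocountable traces on
all analytic curves; (2) every set of complex numbers in the least closed family is countable or
cocountable; (3) the typical exponential systems: the equations are polynomials in `exp x₁, …, exp x_n`
whose coefficients `c_{il}(s, x)` are entire and of polynomial growth in `x` (for example
polynomials in `x₁, …, x_n` with coefficients entire in `s`), and at the nondegenerate solutions every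
`exp x_i` is a root of a polynomial of degree `d_i ≥ 1` with coefficients `a_{ij}(s, x)` of the same kind; here `Λ` is
the product of the leading coefficients. (For `n` equations `∑_j a_{ij}(s, x) exp(x_i)^j = 0` this is
automatic; in general the `a_{ij}` are found by elimination.) `pJ h x` is the Jacobian matrix of `h` at `x`. -/
theorem result :
    (∀ (m : ℕ) (X : Set (Fin m → ℂ)),
      (∀ 𝒟 : (m : ℕ) → Set (Set (Fin m → ℂ)), ClosedXS 𝒟 → X ∈ 𝒟 m) →
      MeasurableSet X ∧ ∀ U : Set ℂ, IsOpen U → IsPreconnected U →
        ∀ γ : ℂ → (Fin m → ℂ), AnalyticOnNhd ℂ γ U →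
          {t | t ∈ U ∧ γ t ∈ X}.Countable ∨ {t | t ∈ U ∧ γ t ∉ X}.Countable) ∧
    (∀ X : Set ℂ,
      (∀ 𝒟 : (m : ℕ) → Set (Set (Fin m → ℂ)), ClosedXS 𝒟 → {v : Fin 1 → ℂ | v 0 ∈ X} ∈ 𝒟 1) →
      X.Countable ∨ Xᶜ.Countable) ∧
    ∀ (m n N : ℕ) (c : Fin n → Fin N → Pt m → Pt n → ℂ) (e : Fin n → Fin N → Fin n → ℕ)
      (d : Fin n → ℕ) (a : (i : Fin n) → Fin (d i + 1) → Pt m → Pt n → ℂ),
      (∀ i l, AnalyticOnNhd ℂ (fun p : Pt m × Pt n => c i l p.1 p.2) univ) →
      (∀ i l, PolyGrowth (c i l)) → (∀ i, 1 ≤ d i) →
      (∀ i j, AnalyticOnNhd ℂ (fun p : Pt m × Pt n => a i j p.1 p.2) univ) →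
      (∀ i j, PolyGrowth (a i j)) →
      (∀ s x, (∀ i, ∑ l, c i l s x * ∏ k, Complex.exp (x k) ^ e i l k = 0) →
        (pJ (fun (x : Pt n) i => ∑ l, c i l s x * ∏ k, Complex.exp (x k) ^ e i l k) x).det ≠ 0 →
        ∀ i, ∑ j, a i j s x * Complex.exp (x i) ^ (j : ℕ) = 0) →
      ExpSys (fun _ => 1) (fun s x i => ∑ l, c i l s x * ∏ k, Complex.exp (x k) ^ e i l k)
        (fun _ x => x) (fun s x => ∏ i, a i (Fin.last (d i)) s x) := by
  refine ⟨?_, ?_, ?_⟩
  · intro m X hX
    have h1 : CQ m X ∧ MeasurableSet X := hX _ closed_BC
    exact ⟨h1.2, h1.1⟩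
  · intro X hX
    have h1 : CQ 1 {v : Fin 1 → ℂ | v 0 ∈ X} ∧ MeasurableSet {v : Fin 1 → ℂ | v 0 ∈ X} :=
      hX _ closed_BC
    exact h1.1.qm
  · intro m n N c e d a hca hc hd haa ha h
    exact poly_sys hca hc e hd haa ha h

end Pool.Agent.Results.MP_a12702_lc.ExponentialSystems
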