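import Pool.Agent.T2H96.XE.Closure
import Pool.Agent.T2H96.XS.Poly
import Pool.Agent.T2H96.TW.Rule

/-!
# Homogeneity of the closure under solving systems of exponential equations in several unknowns

The starting result `IsomorphicClosures` treats the closure operator given by equations
`F(y, x) = 0` of finite order in ONE unknown `x`. Here the closure operator is also given by SYSTEMS OF `n`
EXPONENTIAL EQUATIONS IN `n` UNKNOWNS.

An exponential system (`ExpSys`) with parameters `y ∈ ℂ^m` and unknowns `x ∈ ℂ^n` consists of `n`
equations `G(y, x) = 0`, where `G` is entire and bounded by a power of `1 + |x|` and of the numbers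
`max(1, |exp E_i(y, x)|)`, `i = 1, …, n`, the exponents `E_i` are entire and of polynomial growth in `x`
(and `|x|` is bounded by a power of `1 + |E|`; the standard case is `E = x`), and an entire function
`Λ(y, x)` of polynomial growth in `x` such that at the nondegenerate solutions `Λ exp(E_i)` is bounded by
a power of `|x|`. The bounds are locally uniform in `y` outside of the zero set of an entire function
`δ(y)`. By the third part of the result `ExponentialSystems` this includes the systems which are polynomial
in `x₁, …, x_n, exp x₁, …, exp x_n`, with coefficients entire in `y`, if at the nondegenerate solutions every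
`exp x_i` is a root of a polynomial with coefficients `a_{ij}(y, x)`, polynomial in `x`, `j = 0, …, d_i`, for example the
systems `∑_j a_{ij}(y, x) exp(x_i)^j = 0` (`i = 1, …, n`); here `Λ` is the product of the leading
coefficients `a_{i d_i}(y, x)`.

`IsSol δ G Λ y x` says that `x` is a nondegenerate solution (nonzero Jacobian determinant) of
`G(y, x) = 0`, with `Λ(y, x) ≠ 0`, and that `δ(y) ≠ 0`.

For TWO unknowns all systems are allowed: `Sys2 c α β y x = 0` is an arbitrary system of two equations which are
polynomials in `x₁, x₂, exp x₁, exp x₂` with coefficients entire in `y`, and `IsNd (Sys2 c α β) y x` says that `x` is a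
nondegenerate solution (see the result `TwoUnknowns`).

`Cl S A` is the least set of complex numbers which contains `A` and, for all `k` and all tuples `y`
of its elements, all coordinates of all `x` with `S k y x`.

The theorem says that, along every analytic curve `γ`, any two such closures of `A ∪ γ(t)`
(`A` a fixed countable set) are isomorphic over the closure of `A`, by an isomorphism which moves
`γ(t)` to `γ(t')` and respects any countably many relations given in advance whose sections by
analytic curves are countable or cocountable (such as the graphs of exp, of addition and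
multiplication, and all sets in the least closed family of the result `ExponentialSystems`), for all
`t`, `t'` outside of a countable set. With `γ(t) = t` this says that all generic elements look
alike in the exponentially closed fields they generate.

Proof. Solutions are followed along all curves by analytic continuation of sequences of functions;
two numbers `t`, `t'` outside of a countable set are compared by a back-and-forth system whose states are
pairs of sequences which are analytic continuations of one another. The
back-and-forth property is the statement that, for a class of branches, the existence of a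
solution `x` whose branch is in the class is a countable or cocountable condition on `t`. This is proved
in `Pool.Agent.T2H96.XS` by the analyticity of the sums `∑ f(t, x)^N` over the solutions in the class,
weighted with powers of `f = det J · Λ^Q · q(x) · ∏ φ_ε(E_i)^p`, where `J` is the Jacobian matrix and
`φ_ε(z) = (exp(ε z) - 1) / z`: the weight kills the degenerate solutions and decays at infinity,
and nondegenerate solutions with large weight are separated, so that there are few of them.
-/

set_option autoImplicit false

namespace Pool.Agent.Results.MP_a12702_lc.IsomorphicExponentialClosures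

open Set Pool.Agent.TH735.QM Pool.Agent.TH735.FO Pool.Agent.T2H96.XS Pool.Agent.T2H96.XE
open Pool.Agent.T2H96.TW

/-- The relations `S(y, x)` between `y ∈ ℂ^m` and `x ∈ ℂ^n` under which the sets are closed. -/
inductive Solving : (m n : ℕ) → (Pt m → Pt n → Prop) → Prop
  /-- one equation `F(y, x) = 0` in one unknown `x`, of finite order in `x` locally uniformly in `y`;
  `IsZero F y x` says that `F(y, ·)` is not identically zero and `F(y, x) = 0` -/
  | order {m : ℕ} (F : Pt m → ℂ → ℂ)
      (hF : AnalyticOnNhd ℂ (fun p : (Fin m → ℂ) × ℂ => F p.1 p.2) univ) (hord : FiniteOrder F) :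
      Solving m 1 (fun y x => IsZero F y (x 0))
  /-- the nondegenerate solutions of an exponential system of `n` equations in `n` unknowns -/
  | system {m n : ℕ} (δ : Pt m → ℂ) (G E : Pt m → Pt n → Pt n) (Λ : Pt m → Pt n → ℂ)
      (h : ExpSys δ G E Λ) : Solving m n (IsSol δ G Λ)
  /-- the nondegenerate solutions of any system of two exponential polynomial equations in two
  unknowns -/
  | two {m N : ℕ} (c : Fin 2 → Fin N → Pt m → ℂ) (α β : Fin 2 → Fin N → Fin 2 → ℕ)
      (hc : ∀ i l, AnalyticOnNhd ℂ (c i l) univ) : Solving m 2 (IsNd (Sys2 c α β))

theorem Solving.grd {m n : ℕ} {S : Pt m → Pt n → Prop} (h : Solving m n S) : Grd S := by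
  cases h with
  | order F hF hord => exact grd_order hF hord
  | system δ G E Λ h => exact grd_sys h
  | two c α β hc => exact grd_two hc

theorem result (m n : ℕ → ℕ) (S : (k : ℕ) → Pt (m k) → Pt (n k) → Prop)
    (hS : ∀ k, Solving (m k) (n k) (S k))
    (l : ℕ → ℕ) (R : (j : ℕ) → Set (Fin (l j) → ℂ)) (hR : ∀ j, CQ (l j) (R j))
    (A : Set ℂ) (hA : A.Countable)
    (U : Set ℂ) (hU : IsOpen U) (hUc : IsPreconnected U)
    (d : ℕ) (γ : ℂ → (Fin (d + 1) → ℂ)) (hγ : AnalyticOnNhd ℂ γ U) :
    ∃ B : Set ℂ, B.Countable ∧ ∀ t ∈ U, ∀ t' ∈ U, t ∉ B → t' ∉ B →
      ∃ σ : {z // Cl S (A ∪ range (γ t)) z} ≃ {z // Cl S (A ∪ range (γ t')) z},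
        (∀ i, (σ ⟨γ t i, Cl.base (Or.inr ⟨i, rfl⟩)⟩ : ℂ) = γ t' i) ∧
        (∀ z, ∀ hz : Cl S A z, (σ ⟨z, hz.mono subset_union_left⟩ : ℂ) = z) ∧
        ∀ j, ∀ v : Fin (l j) → {z // Cl S (A ∪ range (γ t)) z},
          (fun a => (v a : ℂ)) ∈ R j ↔ (fun a => (σ (v a) : ℂ)) ∈ R j :=
  closures (fun k => (hS k).grd) hR hA hU hUc hγ

end Pool.Agent.Results.MP_a12702_lc.IsomorphicExponentialClosures
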