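import Pool.Agent.T2H96.XP.Indisc
import Pool.Agent.T2H96.XP.SZ
import Pool.Agent.T2H96.XP.GK
import Pool.Agent.T2H96.XS.Poly
import Pool.Agent.T2H96.TW.Rule

/-!
# Generic tuples and perfect sets of total indiscernibles in exponentially closed fields

A quasiminimal structure in the sense of Zilber has unique generic types not only of single elements but of
tuples, and its independent elements are totally indiscernible. The previous results on
homogeneity (the starting result `IsomorphicClosures` and the result `IsomorphicExponentialClosures`)
compare the closures of `A ∪ γ(t)` along an analytic curve `γ(t)`, so that there is only ONE generic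
parameter. Here we treat generic `k`-tuples, for all `k`, and infinite sequences.

Setting. `S 0, S 1, S 2, …` are relations `S k y x` between `y ∈ ℂ^{m_k}` and `x ∈ ℂ^{n_k}`, each one of one of the
following types (`Solving`):
* `x` is a simple zero of `F(y, ·)`, where `F` is entire and of finite order in `x`, locally uniformly in
  `y` (`n_k = 1`; for example all polynomials, `x = exp(y)` and `y = exp(x)`, all exponential polynomials in `x` with
  coefficients entire in `y`; a zero of multiplicity `r + 1` of `F(y, ·)` is a simple zero of its `r`-th
  derivative, so that the closure under all zeros is obtained if one takes the `x`-derivatives of `F` too);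
* `x` is a nondegenerate solution of an exponential SYSTEM of `n_k` equations in `n_k` unknowns with parameters `y`
  (`IsSol δ G Λ y x` with `ExpSys δ G E Λ`, see the results `ExponentialSystems` and
  `IsomorphicExponentialClosures`: the equations are polynomials in `x₁, …, exp x₁, …` and, at the nondegenerate
  solutions with `Λ(y, x) ≠ 0`, each `exp x_i` is algebraic over `x₁, …, x_n`);
* `x` is a nondegenerate solution of an ARBITRARY system of two equations in two unknowns which are polynomials in
  `x₁, x₂, exp x₁, exp x₂` with coefficients entire in `y` (`IsNd (Sys2 c α β) y x`, see the result `TwoUnknowns`).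

`Cl S A` is the least set of complex numbers which contains `A` and, for all `k` and all tuples `y` of its
elements, all coordinates of all `x` with `S k y x`. `R j ⊆ ℂ^{l_j}` are any countably many Borel relations whose
sections by analytic curves are countable or cocountable (`CQ`); for example the graphs of addition,
multiplication and exp, and all sets in the least closed family of the result `ExponentialSystems`.

`IsIso S R A p p' σ` says that the bijection `σ` between `Cl S (A ∪ {p j})` and `Cl S (A ∪ {p' j})` moves `p j` to
`p' j`, is the identity on `Cl S A`, and respects all the relations `R j` and `S k`.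

Theorem. (1) Let `A` be countable. For every `k` there is a comeagre set `G` of `k`-tuples such that the
closures of `A ∪ p` and `A ∪ p'` are isomorphic in this sense for all `p, p' ∈ G`. (2) Every nonempty open subset of
`ℂ` contains a nonempty compact perfect set `P` (so of the cardinality of the continuum) which is independent
over `A` (no `p ∈ P` is in the closure of `A ∪ (P ∖ {p})`) and totally indiscernible: for any two
injective families `p, p'` (with a countable index set, finite or infinite) of elements of `P`, the closures of
`A ∪ p` and of `A ∪ p'` are isomorphic. In particular all permutations and all injections of a countable subset `Q`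
of `P` extend to embeddings of `Cl S (A ∪ Q)`.

Proof. The closure of `A ∪ p` is followed by analytic continuation in all `k` variables. A branch over
a `k`-dimensional domain is cut by all one-dimensional curves parallel to the axes; there the existence of a
solution in a given class of branches is a countable or cocountable condition on the parameter, because of
the analyticity of the weighted power sums over the solutions (`Pool.Agent.T2H96.XS`). A Borel set in `ℂ^k` which
has this property on all axis-parallel discs is meagre or comeagre in every connected open set
(Kuratowski-Ulam theorem, and topological 0-1 law), which gives the back-and-forth property outside of a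
meagre set. Since the exceptional sets `N_k ⊆ ℂ^k` are meagre for all `k`, Mycielski's theorem gives a perfect set all of
whose injective tuples avoid them. Independence follows from indiscernibility since the closure
operator has finite character and closures of countable sets are countable.

The packages TL, KU, MY, GK, SZ of the proof are by helper68, helper82, helper76, helper30, helper23; the test function
of `Pool.Agent.T2H96.XS` is by helper77.
-/

set_option autoImplicit false

namespace Pool.Agent.Results.MP_a12702_lc.TotalIndiscernibles

open Set Pool.Agent.TH735.QM Pool.Agent.TH735.FO Pool.Agent.T2H96.XS Pool.Agent.T2H96.XE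
open Pool.Agent.T2H96.XP Pool.Agent.T2H96.TW

/-- The relations `S(y, x)` between `y ∈ ℂ^m` and `x ∈ ℂ^n` under which the sets are closed. -/
inductive Solving : (m n : ℕ) → (Pt m → Pt n → Prop) → Prop
  /-- one equation `F(y, x) = 0` in one unknown `x`, of finite order in `x` locally uniformly in `y`;
  `IsSimple F y x` says that `F(y, x) = 0` and that the derivative of `F(y, ·)` at `x` is not zero -/
  | order {m : ℕ} (F : Pt m → ℂ → ℂ)
      (hF : AnalyticOnNhd ℂ (fun p : (Fin m → ℂ) × ℂ => F p.1 p.2) univ) (hord : FiniteOrder F) :
      Solving m 1 (fun y x => IsSimple F y (x 0))
  /-- the nondegenerate solutions of an exponential system of `n` equations in `n` unknowns -/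
  | system {m n : ℕ} (δ : Pt m → ℂ) (G E : Pt m → Pt n → Pt n) (Λ : Pt m → Pt n → ℂ)
      (h : ExpSys δ G E Λ) : Solving m n (IsSol δ G Λ)
  /-- the nondegenerate solutions of any system of two exponential polynomial equations in two
  unknowns -/
  | two {m N : ℕ} (c : Fin 2 → Fin N → Pt m → ℂ) (α β : Fin 2 → Fin N → Fin 2 → ℕ)
      (hc : ∀ i l, AnalyticOnNhd ℂ (c i l) univ) : Solving m 2 (IsNd (Sys2 c α β))

theorem Solving.grdK {m n : ℕ} {S : Pt m → Pt n → Prop} (h : Solving m n S) : GrdK S := by
  cases h with
  | order F hF hord =>
    exact { grd_simple hF hord with gd := fun y x hx => goodK_simple hF hx }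
  | system δ G E Λ h =>
    exact { grd_sys h with gd := fun y x hx => goodK_sys h hx }
  | two c α β hc => exact grdK_two hc

theorem result (m n : ℕ → ℕ) (S : (k : ℕ) → Pt (m k) → Pt (n k) → Prop)
    (hS : ∀ k, Solving (m k) (n k) (S k))
    (l : ℕ → ℕ) (R : (j : ℕ) → Set (Fin (l j) → ℂ)) (hR : ∀ j, CQ (l j) (R j))
    (hRm : ∀ j, MeasurableSet (R j)) (A : Set ℂ) (hA : A.Countable) :
    (∀ k, ∃ G : Set (Fin k → ℂ), IsMeagre Gᶜ ∧
      ∀ p ∈ G, ∀ p' ∈ G, ∃ σ, IsIso S R A p p' σ) ∧
    ∀ V : Set ℂ, IsOpen V → V.Nonempty → ∃ P ⊆ V, Perfect P ∧ IsCompact P ∧ P.Nonempty ∧
      (∀ p ∈ P, ¬ Cl S (A ∪ (P \ {p})) p) ∧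
      ∀ (J : Type) [Countable J] (p p' : J → ℂ), Function.Injective p → Function.Injective p' →
        (∀ j, p j ∈ P) → (∀ j, p' j ∈ P) → ∃ σ, IsIso S R A p p' σ :=
  indisc (fun k => (hS k).grdK) hR hRm hA

end Pool.Agent.Results.MP_a12702_lc.TotalIndiscernibles
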