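import Pool.Agent.Results.MP_a12702_lc.MagidorMalitz
import Pool.Agent.T2H96.TW.Rule

/-!
# Quasiminimality for quantifiers over the solutions of all systems of two exponential polynomial equations in two unknowns

The closure operator of the exponential field `ℂ_exp` is given by the nondegenerate solutions of systems of `n`
exponential polynomial equations in `n` unknowns ('Khovanskii systems'). The starting results contain
quantifiers over the solutions of one equation in one unknown; the result `ExponentialSystems` contains the
systems of `n` equations in `n` unknowns for which, at the solutions in question, every `exp x_i` is algebraic over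
`x₁, …, x_n`, with nonvanishing leading coefficients.

Here we treat ALL systems of `n = 2` equations in two unknowns, without any further hypothesis:
`F₁(s, x₁, x₂) = F₂(s, x₁, x₂) = 0`, where `F_i` is a polynomial in `x₁, x₂, exp x₁, exp x₂` whose coefficients are
arbitrary entire functions of the parameters `s ∈ ℂ^m` (`Sys2 c α β`). The quantifier is 'there are at least `κ`
nondegenerate solutions `x ∈ ℂ^2` such that `X(s, x)`', with an ARBITRARY matrix `X ⊆ ℂ^{m+2}` of the family. For
the surfaces in `ℂ^2 × (ℂ^*)^2` the existence of solutions is a theorem of Mantova and Masser, who had to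
treat separately the surfaces whose projection to `ℂ^2` is not dominant; here too this is the essential new case.

Proof. Let `γ(t)` be an analytic curve in the space of parameters. By elimination (a Bézout identity over the
field of fractions), at the nondegenerate solutions each `exp x_v` satisfies a polynomial equation over
`x₁, x₂` whose leading coefficient `Λ_v(t, x)` is a polynomial in `x`, not identically zero
(`Pool.Agent.T2H96.TW.elim2`). The solutions with `Λ₁ Λ₂ ≠ 0` are counted by the theorem behind the result
`ExponentialSystems`. The others are on the plane algebraic curves `Λ_v(t, ·) = 0`. After a linear change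
`x = (y₁ + λ y₂, y₂)` these curves are monic in `y₂` (`lead2`). The NORM of `F_i` from the curve to the `y₁`-line,
that is the lowest coefficient which is not identically zero of the characteristic polynomial of `F_i(t, y₁ + λ M, M)`,
where `M(t, y₁)` is the companion matrix of the curve, is an entire function of finite order in `y₁`, analytic in `t`,
and not identically zero (`norm2`). It vanishes at the first coordinates of those zeros of `F_i` on the curve which
are limits of points of the curve where `F_i ≠ 0`; since nondegenerate solutions are isolated, each of them is of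
this kind for one of the two equations (`isol2`). So these solutions are found by two guarded quantifiers in one
unknown (`y₁`, then `y₂`), to which the counting theorem of the starting result
`FiniteOrderGuards` applies. The packages E1, E2, L2, N2, I2 of the proof are by helper88, helper97, helper13, helper87,
helper79.
-/

set_option autoImplicit false

namespace Pool.Agent.Results.MP_a12702_lc.TwoUnknowns

open Set Function Cardinal MeasureTheory Pool.Agent.TH735.QM Pool.Agent.T2H96.XS
open Pool.Agent.T2H96.TW

/-- Closure conditions on families `𝒟 m` of subsets of `ℂ^m`: those of the starting result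
`MagidorMalitz` and a further one. -/
structure Closed2 (𝒟 : (m : ℕ) → Set (Set (Fin m → ℂ))) : Prop extends
    MagidorMalitz.ClosedMM 𝒟 where
  /-- there are at least `κ` nondegenerate solutions `x ∈ ℂ^2` of the system `Sys2 c α β s x = 0` of two
  exponential polynomial equations with `X(s, x)`, for an arbitrary set `X` of the family -/
  two : ∀ (m N : ℕ) (c : Fin 2 → Fin N → Pt m → ℂ) (α β : Fin 2 → Fin N → Fin 2 → ℕ),
    (∀ i l, AnalyticOnNhd ℂ (c i l) univ) → ∀ X ∈ 𝒟 (m + 2), ∀ κ : Cardinal.{0},
    {s : Pt m | κ ≤ #({x : Pt 2 | IsNd (Sys2 c α β) s x ∧
      (Fin.append s x : Fin (m + 2) → ℂ) ∈ X} : Set (Pt 2))} ∈ 𝒟 m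

theorem closed_BC : Closed2 (fun m => {X | CQ m X ∧ MeasurableSet X}) :=
  { MagidorMalitz.closed_BC with
    two := fun _ _ _ _ _ hc _ hX κ => ⟨CQ.two hc hX.1 κ, meas_nd (sys2_an hc) hX.2 κ⟩ }

/-- (1) The sets in the least closed family are Borel sets with countable or cocountable traces on
all analytic curves; (2) every set of complex numbers in the least closed family is countable or
cocountable. -/
theorem result :
    (∀ (m : ℕ) (X : Set (Fin m → ℂ)),
      (∀ 𝒟 : (m : ℕ) → Set (Set (Fin m → ℂ)), Closed2 𝒟 → X ∈ 𝒟 m) →
      MeasurableSet X ∧ ∀ U : Set ℂ, IsOpen U → IsPreconnected U →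
        ∀ γ : ℂ → (Fin m → ℂ), AnalyticOnNhd ℂ γ U →
          {t | t ∈ U ∧ γ t ∈ X}.Countable ∨ {t | t ∈ U ∧ γ t ∉ X}.Countable) ∧
    ∀ X : Set ℂ,
      (∀ 𝒟 : (m : ℕ) → Set (Set (Fin m → ℂ)), Closed2 𝒟 → {v : Fin 1 → ℂ | v 0 ∈ X} ∈ 𝒟 1) →
      X.Countable ∨ Xᶜ.Countable := by
  refine ⟨?_, ?_⟩
  · intro m X hX
    have h1 : CQ m X ∧ MeasurableSet X := hX _ closed_BC
    exact ⟨h1.2, h1.1⟩
  · intro X hX
    have h1 : CQ 1 {v : Fin 1 → ℂ | v 0 ∈ X} ∧ MeasurableSet {v : Fin 1 → ℂ | v 0 ∈ X} :=
      hX _ closed_BC
    exact h1.1.qm

end Pool.Agent.Results.MP_a12702_lc.TwoUnknowns
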